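import Pool.Agent.J4H70.TW.Win

/-!
# Algebraic values among the towers `e ^ (e ^ n)`

For a single `n ≥ 1` nothing is known about the number `e ^ (e ^ n)` (`n = 1` is the number `e ^ e` of the problem),
only that `e ^ e` or `e ^ (e ^ 2)` is transcendental (Brownawell, Waldschmidt). Here the exceptions are counted:

* at most `(1 + o(1)) √N` of the numbers `e ^ (e ^ n)`, `1 ≤ n ≤ N`, are algebraic;
* at most `(1 + o(1)) √(2 N)` of them are algebraic over `ℚ(e)`, so that `e` and `e ^ (e ^ n)` are algebraically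
  independent for all the others;
* the two bounds are not attained together: the sum of the two numbers is at most `(1 + o(1)) √(5 N)`.

(Schanuel's conjecture: there is no exception at all.) Known before: at most `1/2 + √(4 N - 15/4)` of the numbers
`e ^ (x t ^ n)`, `n ≤ N`, `t` transcendental, `x ≠ 0`, are algebraic (Ramachandra and Srinivasan 1983, with the six
exponentials theorem), as I recall also at most `(√2 + ε) √N` of them (Balasubramanian and Ramachandra). New are the
bounds for algebraic over `ℚ(e)` in place of algebraic, the constant `1` for the algebraic values, and the joint bounds.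
The same for the numbers `e ^ (e ^ r)` with `r` in a finite set `R` of rational numbers, and for the numbers `e ^ s`
with `s` in a finite set `S` of complex numbers, linearly independent over `ℚ`, in the algebraic closure of `ℚ(β)`, `β`
a fixed transcendental number.

Method. Let `B ⊆ S` be the set of the `s` with `e ^ s` algebraic over `ℚ(β)`, `A ⊆ B` the set of those with `e ^ s`
algebraic. The theorem of Brownawell and Waldschmidt (starting files, `Pool.Agent.W252.bw`) for `x = (s, s')`,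
`y = (d, 1)` shows that a quotient `d ≠ 1` has at most ONE representation `d = r / s` with `r ∈ A`, `s ∈ B`; the theorem
of Gel'fond on `3 × 2` exponentials (starting files, `Pool.Agent.W252.gelG32`) shows that it has at most TWO
representations with `r, s ∈ B`. Then the pairs are counted in windows `t K`, `t ∈ S / K` (Erdős and Turán), with the
Cauchy-Schwarz inequality for `x |A ∩ t K| + y |B ∩ t K|`. For the towers `s = e ^ n`; distinct rational powers of the
transcendental number `e` are linearly independent.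
-/

set_option autoImplicit false

namespace Pool.Agent.Results.MP_58ae59_nt.AlmostAllTowers

open Finset

open scoped Pointwise IntermediateField

open Classical in
/-- **Algebraic values among the numbers `e ^ (e ^ n)`.**

(A) Let `β` be a transcendental number, `S` a finite set of complex numbers, linearly independent over `ℚ` and
algebraic over `ℚ(β)`, let `a` of the numbers `e ^ s`, `s ∈ S`, be algebraic and `b` of them algebraic over `ℚ(β)`.
Then `b (b - 1) ≤ 2 (|S / S| - 1)` and `a (b - 1) ≤ |S / S| - 1`, and for every finite set `K` of nonzero complex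
numbers and all `x, y ≥ 0`
`|K| (x a + y b)² ≤ |S / K| ((x² + 2 x y) (a + |K| - 1) + y² (b + 2 (|K| - 1)))`.

(B) Let `R` be a finite set of rational numbers, let `a` of the numbers `e ^ (e ^ r)`, `r ∈ R`, be algebraic and `b`
of them algebraic over `ℚ(e)`. Then the same inequalities hold with `|R - R|` for `|S / S|` and, for every finite set
`K` of rational numbers, `|R - K|` for `|S / K|`.

(C) Let `a` of the numbers `e ^ (e ^ n)`, `1 ≤ n ≤ N`, be algebraic and `b` of them algebraic over `ℚ(e)`. Then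
`b (b + 1) ≤ 4 N` and `a b ≤ 2 N`, and for all `x, y ≥ 0`
`(x a + y b)² ≤ (x² + 2 x y + 2 y²) N + 8 (x + y)² N ^ (3/4)`; so `a ≤ √N + 4 N ^ (1/4)`,
`b ≤ √(2 N) + 3 N ^ (1/4)` and `a + b ≤ √(5 N) + 8 N ^ (1/4)`. -/
theorem result :
    (∀ β : ℂ, Transcendental ℚ β → ∀ S : Finset ℂ, LinearIndependent ℚ (fun s : S => (s : ℂ)) →
      (∀ s ∈ S, IsAlgebraic ℚ⟮β⟯ s) → ∀ a b : ℕ,
      a = (S.filter (fun s => IsAlgebraic ℚ (Complex.exp s))).card →
      b = (S.filter (fun s => IsAlgebraic ℚ⟮β⟯ (Complex.exp s))).card →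
      b * (b - 1) ≤ 2 * ((S / S).card - 1) ∧ a * (b - 1) ≤ (S / S).card - 1 ∧
      ∀ K : Finset ℂ, (∀ k ∈ K, k ≠ 0) → ∀ x y : ℝ, 0 ≤ x → 0 ≤ y →
        (K.card : ℝ) * (x * a + y * b) ^ 2 ≤ (S / K).card *
          ((x ^ 2 + 2 * x * y) * (a + ((K.card : ℝ) - 1)) + y ^ 2 * (b + 2 * ((K.card : ℝ) - 1)))) ∧
    (∀ R : Finset ℚ, ∀ a b : ℕ,
      a = (R.filter (fun r : ℚ => IsAlgebraic ℚ (Complex.exp (Complex.exp r)))).card →
      b = (R.filter (fun r : ℚ => IsAlgebraic ℚ⟮Complex.exp 1⟯ (Complex.exp (Complex.exp r)))).card →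
      b * (b - 1) ≤ 2 * ((R - R).card - 1) ∧ a * (b - 1) ≤ (R - R).card - 1 ∧
      ∀ K : Finset ℚ, ∀ x y : ℝ, 0 ≤ x → 0 ≤ y →
        (K.card : ℝ) * (x * a + y * b) ^ 2 ≤ (R - K).card *
          ((x ^ 2 + 2 * x * y) * (a + ((K.card : ℝ) - 1)) + y ^ 2 * (b + 2 * ((K.card : ℝ) - 1)))) ∧
    (∀ N a b : ℕ,
      a = ((Icc 1 N).filter (fun n : ℕ => IsAlgebraic ℚ (Complex.exp (Complex.exp n)))).card →
      b = ((Icc 1 N).filter
        (fun n : ℕ => IsAlgebraic ℚ⟮Complex.exp 1⟯ (Complex.exp (Complex.exp n)))).card →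
      b * (b + 1) ≤ 4 * N ∧ a * b ≤ 2 * N ∧
      (∀ x y : ℝ, 0 ≤ x → 0 ≤ y → (x * a + y * b) ^ 2 ≤
        (x ^ 2 + 2 * x * y + 2 * y ^ 2) * N + 8 * (x + y) ^ 2 * (N : ℝ) ^ (3 / 4 : ℝ)) ∧
      (a : ℝ) ≤ √N + 4 * (N : ℝ) ^ (1 / 4 : ℝ) ∧ (b : ℝ) ≤ √(2 * N) + 3 * (N : ℝ) ^ (1 / 4 : ℝ) ∧
      (a : ℝ) + b ≤ √(5 * N) + 8 * (N : ℝ) ^ (1 / 4 : ℝ)) := by
  refine ⟨?_, ?_, ?_⟩
  · rintro β hβ S hS hK a b rfl rfl
    obtain ⟨h1, h2⟩ := Pool.Agent.J4H70.TW.general hβ S hS hK
    exact ⟨h1, h2, fun K h0K x y hx hy => Pool.Agent.J4H70.TW.general_win hβ S hS hK K h0K x y hx hy⟩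
  · rintro R a b rfl rfl
    obtain ⟨h1, h2⟩ := Pool.Agent.J4H70.TW.rationals R
    exact ⟨h1, h2, fun K x y hx hy => Pool.Agent.J4H70.TW.rationals_win R K x y hx hy⟩
  · intro N a b ha hb
    obtain ⟨h1, h2⟩ := Pool.Agent.J4H70.TW.towers N
    have hfin := fun (u : ℕ) (hu : 1 ≤ u) (x y : ℝ) (hx : 0 ≤ x) (hy : 0 ≤ y) =>
      Pool.Agent.J4H70.TW.towers_fin N u hu x y hx hy
    simp only [← ha, ← hb] at h1 h2 hfin
    have hab : a ≤ b := by
      rw [ha, hb]
      apply card_le_card
      intro n hn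
      rw [mem_filter] at hn ⊢
      exact ⟨hn.1, Pool.Agent.J4H70.TW.alg_up hn.2⟩
    have hb2 : (b : ℝ) ≤ 2 * √N := by
      have h3 : b ^ 2 ≤ 4 * N := by
        calc b ^ 2 = b * b := sq b
          _ ≤ b * (b + 1) := Nat.mul_le_mul le_rfl (by omega)
          _ ≤ 4 * N := h1
      have h4 : ((b : ℝ) / 2) ≤ √N := by
        apply Real.le_sqrt_of_sq_le
        have h5 : (b : ℝ) ^ 2 ≤ 4 * N := by exact_mod_cast h3
        nlinarith
      linarith
    have hw : ∀ x y : ℝ, 0 ≤ x → 0 ≤ y → (x * a + y * b) ^ 2 ≤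
        (x ^ 2 + 2 * x * y + 2 * y ^ 2) * N + 8 * (x + y) ^ 2 * (N : ℝ) ^ (3 / 4 : ℝ) := by
      intro x y hx hy
      exact Pool.Agent.J4H70.TW.choose_u N a b x y hx hy (Nat.cast_nonneg a) (by exact_mod_cast hab)
        hb2 (fun u hu => hfin u hu x y hx hy)
    have hN0 : (0 : ℝ) ≤ N := Nat.cast_nonneg N
    set q : ℝ := (N : ℝ) ^ (1 / 4 : ℝ) with hq
    have hq0 : 0 ≤ q := Real.rpow_nonneg hN0 _
    have hs : √(N : ℝ) = q ^ 2 := by
      rw [hq, Real.sqrt_eq_rpow, ← Real.rpow_natCast, ← Real.rpow_mul hN0]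
      norm_num
    have hs3 : (N : ℝ) ^ (3 / 4 : ℝ) = √N * q := by
      rw [hs, hq, ← pow_succ, ← Real.rpow_natCast, ← Real.rpow_mul hN0]
      norm_num
    have hfinal : ∀ (z c C m : ℝ), 0 ≤ m → 0 ≤ c → z ^ 2 ≤ m * N + C * (N : ℝ) ^ (3 / 4 : ℝ) →
        C ≤ 2 * √m * c → z ≤ √(m * N) + c * q := by
      intro z c C m hm hc hz hC
      apply le_of_sq_le_sq _ (by positivity)
      have e1 : √(m * N) = √m * √N := Real.sqrt_mul hm _
      have e2 : (√m) ^ 2 = m := Real.sq_sqrt hm
      have e3 : (√(N : ℝ)) ^ 2 = N := Real.sq_sqrt hN0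
      have e4 : C * (N : ℝ) ^ (3 / 4 : ℝ) ≤ (2 * √m * c) * (√N * q) := by
        rw [hs3]
        exact mul_le_mul_of_nonneg_right hC (by positivity)
      calc z ^ 2 ≤ m * N + C * (N : ℝ) ^ (3 / 4 : ℝ) := hz
        _ ≤ m * N + (2 * √m * c) * (√N * q) := by linarith
        _ ≤ m * N + (2 * √m * c) * (√N * q) + (c * q) ^ 2 := by linarith [sq_nonneg (c * q)]
        _ = (√(m * N) + c * q) ^ 2 := by
          rw [e1]
          nth_rewrite 1 [← e2]
          nth_rewrite 1 [← e3]
          ring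
    refine ⟨h1, h2, hw, ?_, ?_, ?_⟩
    · have h3 := hw 1 0 zero_le_one le_rfl
      have h4 := hfinal a 4 8 1 zero_le_one (by norm_num) (by
        refine le_trans (le_of_eq (by ring)) (h3.trans (le_of_eq (by ring)))) (by
        rw [Real.sqrt_one]; norm_num)
      rwa [one_mul] at h4
    · have h3 := hw 0 1 le_rfl zero_le_one
      refine hfinal b 3 8 2 zero_le_two (by norm_num) (by
        refine le_trans (le_of_eq (by ring)) (h3.trans (le_of_eq (by ring)))) ?_
      have : (4 / 3 : ℝ) ≤ √2 := by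
        apply Real.le_sqrt_of_sq_le
        norm_num
      linarith
    · have h3 := hw 1 1 zero_le_one zero_le_one
      refine hfinal (a + b) 8 32 5 (by norm_num) (by norm_num) (by
        refine le_trans (le_of_eq (by ring)) (h3.trans (le_of_eq (by ring)))) ?_
      have : (2 : ℝ) ≤ √5 := by
        apply Real.le_sqrt_of_sq_le
        norm_num
      linarith

end Pool.Agent.Results.MP_58ae59_nt.AlmostAllTowers
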