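import Mathlib
import Pool.Agent.J4H85.EE.Appl

set_option autoImplicit false

/-!
# `e ^ e` and roots of powers of numbers near `1`

If `(e ^ e) ^ j = (p / q) ^ m`, `p ≠ q`, `j ≥ 1`, then `q` is at most a triple exponential of a
polynomial in `j |p - q|`; so for every `D` the number `e ^ e` is none of the numbers
`(p / q) ^ (m / j)` with `j, |p - q| ≤ D` and `q` large.  The same holds with `β (k / c)` in the
place of `p / q = 1 + (p - q) / q`, for every function `β` whose logarithm has a third order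
expansion at `0` with rational coefficients and a nonzero linear term.

Proof.  The first Padé approximant of the logarithm gives integers `a, b`, `b` of the size of `c`,
with `b (b e - a) = ρ e + O (1 / b)`, where `ρ` is an integer, essentially `(j k) ^ 2`.  Since `e` is
irrational and the continued fraction of `e` is regular, `(b, a) = t (q_n, r_n)` for a diagonal
Padé approximant `r_n / q_n` of `e`, and `t ^ 2 = |ρ| e (N + 1 / (2 N) + …)` with `N = 2 n + 1`.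
So `b' = |ρ| N`, `a' = t ^ 2` is again such a pair: `b' (b' e - a') = - ρ ^ 2 e / 2 + O (1 / b')`,
with `N` about the logarithm of `b`.  In the third pair the exponents of `2` contradict each other.
-/

namespace Pool.Agent.Results.MP_58ae59_nt.RootsOfPowersNearOne

open Real Topology Asymptotics

theorem partB (β : ℝ → ℝ) (A₁ A₂ A₃ : ℚ) (h1 : A₁ ≠ 0)
    (hβ : (fun x : ℝ => log (β x) - (A₁ * x + A₂ * x ^ 2 + A₃ * x ^ 3)) =O[𝓝 0]
      fun x : ℝ => x ^ 4) :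
    ∃ A : ℝ, ∀ (k m : ℤ) (j c : ℕ), k ≠ 0 → 1 ≤ j → 1 ≤ c →
      exp (exp 1) ^ j = β (k / c) ^ m →
      (c : ℝ) ≤ exp (exp (exp (A * (j * |(k : ℝ)|) ^ 192))) := by
  obtain ⟨A, hA⟩ := Pool.Agent.J4H85.EE.main (fun x => log (β x)) A₁ A₂ A₃ h1 hβ
  refine ⟨A, fun k m j c hk hj hc h => hA k j c m hk hj hc ?_⟩
  have h2 := congrArg log h
  rw [log_pow, log_zpow, log_exp] at h2
  exact h2

theorem log_expansion : (fun x : ℝ => log (1 + x) -
    (((1 : ℚ) : ℝ) * x + ((-1 / 2 : ℚ) : ℝ) * x ^ 2 + ((1 / 3 : ℚ) : ℝ) * x ^ 3)) =O[𝓝 0]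
      fun x : ℝ => x ^ 4 := by
  refine IsBigO.of_bound 2 ?_
  have h : ∀ᶠ x : ℝ in 𝓝 0, |x| ≤ 1 / 2 := by
    refine Metric.eventually_nhds_iff.2 ⟨1 / 2, by norm_num, fun x hx => ?_⟩
    rw [Real.dist_eq, sub_zero] at hx
    exact hx.le
  refine h.mono fun x hx => ?_
  have h1 := Real.abs_log_sub_add_sum_range_le (x := -x) (by rw [abs_neg]; linarith) 3
  rw [abs_neg] at h1
  have h2 : ∑ i ∈ Finset.range 3, (-x) ^ (i + 1) / ((i : ℝ) + 1) + log (1 - -x) =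
      log (1 + x) - (((1 : ℚ) : ℝ) * x + ((-1 / 2 : ℚ) : ℝ) * x ^ 2 +
        ((1 / 3 : ℚ) : ℝ) * x ^ 3) := by
    simp only [Finset.sum_range_succ, Finset.sum_range_zero]
    push_cast
    rw [sub_neg_eq_add]
    ring
  rw [h2] at h1
  rw [Real.norm_eq_abs, Real.norm_eq_abs, abs_pow]
  refine h1.trans ?_
  rw [div_le_iff₀ (by linarith)]
  have h3 : 0 ≤ |x| ^ 4 := by positivity
  have h4 : |x| ^ 4 * 1 ≤ |x| ^ 4 * (2 * (1 - |x|)) :=
    mul_le_mul_of_nonneg_left (by linarith) h3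
  calc |x| ^ (3 + 1) = |x| ^ 4 * 1 := by norm_num
    _ ≤ |x| ^ 4 * (2 * (1 - |x|)) := h4
    _ = 2 * |x| ^ 4 * (1 - |x|) := by ring

/-- (A) There is `A` such that `(e ^ e) ^ j = (p / q) ^ m` with natural numbers `p ≠ q`, `j ≥ 1` and
an integer `m` implies `q ≤ exp (exp (exp (A (j |p - q|) ^ 192)))`.
(B) Let `log β(x) = A₁ x + A₂ x ^ 2 + A₃ x ^ 3 + O(x ^ 4)` as `x → 0` with rational `A₁ ≠ 0`, `A₂`,
`A₃`.  There is `A` such that `(e ^ e) ^ j = β(k / c) ^ m` with natural numbers `j, c ≥ 1` and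
integers `k ≠ 0`, `m` implies `c ≤ exp (exp (exp (A (j |k|) ^ 192)))`.
(C) In particular for every `D` there is `N` such that `(e ^ e) ^ j ≠ β(k / c) ^ m` for all `c ≥ N`,
all `1 ≤ j ≤ D`, all `k ≠ 0` with `|k| ≤ D` and all integers `m`. -/
theorem result :
    (∃ A : ℝ, ∀ (p q j : ℕ) (m : ℤ), 1 ≤ p → 1 ≤ q → p ≠ q → 1 ≤ j →
      exp (exp 1) ^ j = ((p : ℝ) / q) ^ m →
      (q : ℝ) ≤ exp (exp (exp (A * (j * |(p : ℝ) - q|) ^ 192)))) ∧
    (∀ (β : ℝ → ℝ) (A₁ A₂ A₃ : ℚ), A₁ ≠ 0 →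
      (fun x : ℝ => log (β x) - (A₁ * x + A₂ * x ^ 2 + A₃ * x ^ 3)) =O[𝓝 0] (fun x : ℝ => x ^ 4) →
      (∃ A : ℝ, ∀ (k m : ℤ) (j c : ℕ), k ≠ 0 → 1 ≤ j → 1 ≤ c →
        exp (exp 1) ^ j = β (k / c) ^ m →
        (c : ℝ) ≤ exp (exp (exp (A * (j * |(k : ℝ)|) ^ 192)))) ∧
      ∀ D : ℕ, ∃ N : ℕ, ∀ (k m : ℤ) (j c : ℕ), k ≠ 0 → |k| ≤ D → 1 ≤ j → j ≤ D → N ≤ c →
        exp (exp 1) ^ j ≠ β (k / c) ^ m) := by
  refine ⟨?_, fun β A₁ A₂ A₃ h1 hβ => ⟨partB β A₁ A₂ A₃ h1 hβ, fun D => ?_⟩⟩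
  · obtain ⟨A, hA⟩ := partB (fun x => 1 + x) 1 (-1 / 2) (1 / 3) (by norm_num) log_expansion
    refine ⟨A, fun p q j m hp hq hpq hj h => ?_⟩
    have hq0 : (q : ℝ) ≠ 0 := by
      have : q ≠ 0 := by omega
      exact_mod_cast this
    have h2 := hA ((p : ℤ) - q) m j q (by omega) hj hq (by
      rw [h]
      congr 1
      push_cast
      field_simp
      ring)
    push_cast at h2
    exact h2
  · obtain ⟨A, hA⟩ := partB β A₁ A₂ A₃ h1 hβ
    refine ⟨⌈exp (exp (exp (|A| * ((D : ℝ) * D) ^ 192)))⌉₊ + 1, ?_⟩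
    intro k m j c hk hkD hj hjD hc h
    have hc1 : 1 ≤ c := by omega
    have h2 := hA k m j c hk hj hc1 h
    have h3 : A * (j * |(k : ℝ)|) ^ 192 ≤ |A| * ((D : ℝ) * D) ^ 192 := by
      have hjR : (j : ℝ) ≤ D := by exact_mod_cast hjD
      have hkR : |(k : ℝ)| ≤ D := by
        have : ((|k| : ℤ) : ℝ) ≤ D := by exact_mod_cast hkD
        simpa using this
      have h4 : (j : ℝ) * |(k : ℝ)| ≤ D * D :=
        mul_le_mul hjR hkR (abs_nonneg _) (by positivity)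
      exact mul_le_mul (le_abs_self A) (pow_le_pow_left₀ (by positivity) h4 192) (by positivity)
        (abs_nonneg _)
    have h5 : (c : ℝ) ≤ exp (exp (exp (|A| * ((D : ℝ) * D) ^ 192))) :=
      h2.trans (exp_le_exp.2 (exp_le_exp.2 (exp_le_exp.2 h3)))
    have h6 := Nat.le_ceil (exp (exp (exp (|A| * ((D : ℝ) * D) ^ 192))))
    have h7 : (c : ℝ) ≤ ((⌈exp (exp (exp (|A| * ((D : ℝ) * D) ^ 192)))⌉₊ : ℕ) : ℝ) := h5.trans h6
    have h8 : c ≤ ⌈exp (exp (exp (|A| * ((D : ℝ) * D) ^ 192)))⌉₊ := by exact_mod_cast h7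
    omega

end Pool.Agent.Results.MP_58ae59_nt.RootsOfPowersNearOne
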